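import Pool.Agent.H.MP_5069ae_gt.D

namespace Pool.Agent.Results.MP_5069ae_gt.No
open Pool.Agent.H.MP_5069ae_gt

theorem result (n : ℕ) (hn : 14 ≤ n) :
    ∃ (K : Set (EuclideanSpace ℝ (Fin n))) (p q : EuclideanSpace ℝ (Fin n)) (ε : ℝ),
      IsCompact K ∧ IsConnected K ∧ p ∈ K ∧ q ∈ K ∧ 0 < ε ∧
      ∀ γ : ℝ → EuclideanSpace ℝ (Fin n), ContinuousOn γ (Set.Icc 0 1) → γ 0 = p → γ 1 = q →
        ENNReal.ofReal ε ≤ outLen γ K := by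
  obtain ⟨K, p, q, h1, h2, h3, h4, h5⟩ := main n hn
  exact ⟨K, p, q, 1 / 16000001, h1, h2, h3, h4, by norm_num, h5⟩

end Pool.Agent.Results.MP_5069ae_gt.No
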